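import Mathlib
import Pool.Agent.Run7.h609.BT.W3
import Pool.Agent.Run7.h794.MK.All

/-!
# Almost all displaced windows of length `k` contain, infinitely often, more than `π(k)` primes

The question is whether every sufficiently late window `(x, x + k]` contains at most `π(k) - M` primes, `k ≥ k₀(M)`.  Here the
points of the window are displaced by multiples of a number `P` divisible by all primes `≤ k`: the window
`x + 1, x + 2, …, x + k` is replaced by `x + 1, x + 2 + P D₁, …, x + k + P D_(k-1)`; for all primes `≤ k` it looks like the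
window.  For these windows the opposite holds: let `a < 1 / 2` and let `k` be large.  For almost all displacements `D`
from short families (of scale `N^(1/3) (log N)^C`) there are at least `c₀ N / (log N)^k` of the `x < N` for which the
displaced window contains at least `π(k) + a k log log log k / (log k)^2` primes.

The families: `y_i(j)`, `j ∈ S_i`, are any residues modulo `q_i`, `N^(1/3) (log N)^C ≤ q_i ≤ B N`, all of whose nonzero
Fourier coefficients are `≤ |S_i| / (log N)^V` (for example all residues modulo `q_i`).  The displacements are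
`D_i = c_i + κ_i y_i(n_i) + t_i` with the least nonnegative residues, any `0 ≤ c_i ≤ B N`, fixed `κ_i ≥ 1`, and ALL
`0 ≤ t_i ≤ (log N)^W` at once; the number of the exceptional `(n_i)` is at most `∏ |S_i| / (log N)^U`.

Inputs: the equality of Hardy and Littlewood for almost all displaced windows (`Pool.Agent.Run7.h609.BT.W2`), the
admissible sets of helper381 (starting file, `Pool.Agent.H381R2.HR`), and `flt_all` of project MK (helper794 and others).
-/

set_option autoImplicit false
set_option maxHeartbeats 4000000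

namespace Pool.Agent.Results.MP_5046ca_nt.DisplacedWindows

open Finset

/-- the points of the displaced window of length `K + 1` relative to the first one: `0`, and `i + 1 + P * D i` in the
place of `i + 1`, `0 ≤ i < K` -/
def point {K : ℕ} (P : ℕ) (D : Fin K → ℕ) : Fin (K + 1) → ℕ := Fin.cons 0 fun i => i + 1 + P * D i

/-- the number of the primes in the displaced window which begins with `x + 1` -/
def count {K : ℕ} (P : ℕ) (D : Fin K → ℕ) (x : ℕ) : ℕ := (univ.filter fun j => (x + 1 + point P D j).Prime).card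

open scoped Classical in
/-- many displaced windows have at least `π(k) + a k log log log k / (log k)^2` primes, `k = K + 1` -/
def Excess {K : ℕ} (a c₀ : ℝ) (N : ℕ) (P : ℕ) (D : Fin K → ℕ) : Prop :=
  c₀ * (N / Real.log N ^ (K + 1)) ≤ (((range N).filter fun x => K + 1 ≤ x ∧
    (Nat.primeCounting (K + 1) : ℝ) + a * ((K + 1 : ℕ) * Real.log (Real.log (Real.log (K + 1 : ℕ))) /
      Real.log (K + 1 : ℕ) ^ 2) ≤ (count P D x : ℝ)).card : ℝ)

/-- the Fourier coefficients of the residues `y i`, `i ∈ s`, modulo `q` at the nonzero frequencies are at most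
`δ` times the number of the residues -/
def Flat {ι : Type} (q : ℕ) [NeZero q] (δ : ℝ) (s : Finset ι) (y : ι → ZMod q) : Prop :=
  ∀ h : ZMod q, h ≠ 0 → ‖∑ i ∈ s, (ZMod.stdAddChar (h * y i) : ℂ)‖ ≤ δ * s.card

open scoped Classical in
/-- **almost all displaced windows of length `k` contain, infinitely often, more than `π(k)` primes** -/
theorem result : ∀ a : ℝ, a < 1 / 2 → ∃ k₀ : ℕ, ∀ K : ℕ, 2 ≤ K → k₀ ≤ K + 1 → ∃ c₀ : ℝ, 0 < c₀ ∧
    ∀ (B W U P : ℕ) (κ : Fin K → ℕ), 1 ≤ P → (∀ p : ℕ, p.Prime → p ≤ K + 1 → p ∣ P) → (∀ i, 1 ≤ κ i) →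
    ∃ V C N₀ : ℕ, ∀ N : ℕ, N₀ ≤ N → ∀ (q : Fin K → ℕ) [∀ i, NeZero (q i)],
      (∀ i, (N : ℝ) ^ (1 / 3 : ℝ) * Real.log N ^ C ≤ q i) → (∀ i, q i ≤ B * N) →
      ∀ (ι : Fin K → Type) (S : ∀ i, Finset (ι i)) (y : ∀ i, ι i → ZMod (q i)),
      (∀ i, Flat (q i) (1 / Real.log N ^ V) (S i) (y i)) → ∀ c : Fin K → ℕ, (∀ i, c i ≤ B * N) →
      (((Fintype.piFinset S).filter fun n => ¬ ∀ t : Fin K → ℕ, (∀ i, (t i : ℝ) ≤ Real.log N ^ W) →
        Excess a c₀ N P (fun i => c i + κ i * (y i (n i)).val + t i)).card : ℝ) ≤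
        (∏ i, ((S i).card : ℝ)) / Real.log N ^ U := by
  intro a ha
  obtain ⟨k₀, hk₀⟩ := Pool.Agent.Run7.h609.BT.Win.H_big a ha
  refine ⟨k₀, fun K hK hKk => ?_⟩
  obtain ⟨c₀, hc₀, h⟩ := Pool.Agent.Run7.h609.BT.Win.displaced Pool.Agent.Run7.h794.MK.flt_all K hK
  refine ⟨c₀, hc₀, fun B W U P κ hP hP2 hκ => ?_⟩
  obtain ⟨M, V, C, N₀, h1⟩ := h 0 B W U P κ hP hP2 hκ 1 1 one_pos le_rfl one_pos
  obtain ⟨N₁, h0⟩ := Pool.Agent.H373R2.T7.ev_L' 1
  refine ⟨V, C, N₀ + N₁, fun N hN q _ hq1 hq2 ι S y hf c hc => ?_⟩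
  have g0 := h0 N (by omega)
  refine le_trans ?_ (h1 N (by omega) q hq1 hq2 ι S y hf c hc (fun _ => 0) (fun h h0 _ => by
    exfalso
    apply h0
    funext j
    exact j.elim0))
  have hbig := hk₀ (K + 1) hKk
  have h2 : ((Fintype.piFinset S).filter fun n => ¬ ∀ t : Fin K → ℕ, (∀ i, (t i : ℝ) ≤ Real.log N ^ W) →
        Excess a c₀ N P (fun i => c i + κ i * (y i (n i)).val + t i)) ⊆
      (Fintype.piFinset S).filter (fun n => ¬ ∀ t : Fin K → ℕ, (∀ i, (t i : ℝ) ≤ Real.log N ^ W) →
        Pool.Agent.Run7.h609.BT.Win.Pat 1 N (fun _ : Fin 0 => (0 : ℝ)) P (fun i => c i + κ i * (y i (n i)).val + t i) ∧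
        Pool.Agent.Run7.h609.BT.Win.Many c₀ N P (fun i => c i + κ i * (y i (n i)).val + t i)) := by
    intro n hn
    rw [mem_filter] at hn ⊢
    refine ⟨hn.1, fun hall => hn.2 fun t ht => ?_⟩
    obtain ⟨-, -, h4⟩ := hall t ht
    unfold Excess
    refine le_trans ?_ (h4.trans ?_)
    · apply mul_le_mul_of_nonneg_left _ hc₀.le
      apply div_le_div_of_nonneg_left (Nat.cast_nonneg _) (by positivity)
      exact pow_le_pow_right₀ g0 (Pool.Agent.Run7.h609.BT.Win.H_le (K + 1))
    · have h5 : ((range N).filter fun x => K + 1 ≤ x ∧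
            Pool.Agent.Run7.h609.BT.Win.count P (fun i => c i + κ i * (y i (n i)).val + t i) x =
              Pool.Agent.Run7.h609.BT.Win.H (K + 1)) ⊆
          (range N).filter (fun x => K + 1 ≤ x ∧
            (Nat.primeCounting (K + 1) : ℝ) + a * ((K + 1 : ℕ) * Real.log (Real.log (Real.log (K + 1 : ℕ))) /
            Real.log (K + 1 : ℕ) ^ 2) ≤ (count P (fun i => c i + κ i * (y i (n i)).val + t i) x : ℝ)) := by
        intro x hx
        rw [mem_filter] at hx ⊢
        refine ⟨hx.1, hx.2.1, ?_⟩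
        have h6 : count P (fun i => c i + κ i * (y i (n i)).val + t i) x = Pool.Agent.Run7.h609.BT.Win.H (K + 1) := hx.2.2
        rw [h6]
        exact hbig
      exact_mod_cast card_le_card h5
  exact_mod_cast card_le_card h2

end Pool.Agent.Results.MP_5046ca_nt.DisplacedWindows
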