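import Pool.Agent.Run7.h962.AP.Win
import Pool.Agent.Run7.h962.LF.Win

/-!
# The number of primes in windows `(n, n + y]` under nonnegative weights of level `N^δ`, `δ < 1/2`

The function `ρ(y)` is the largest number of primes which occur in infinitely many windows `(n, n + y]`.  For large `y` the
only known way to produce windows with many primes (Goldston, Pintz and Yıldırım, Maynard, Tao) is to find a nonnegative
weight `w(n)`, a sum of functions with periods `d ≤ Q = N^δ`, such that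
`∑_{n < N} w(n) (π(n + y) - π(n)) > m ∑_{n < N} w(n)`; then some window contains more than `m` primes.  The sums over the primes
are evaluated by the theorem of Bombieri and Vinogradov, for `δ < 1/2` and coefficients which are not too large.  The weights of
Maynard and Tao give `m = (δ/2 + o(1)) log y`.  Here we prove, unconditionally and for the primes themselves, that no
nonnegative weight of any shape gives more, and in particular that none reaches `π(y) - M`, as a disproof of the conjecture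
`π(y) - ρ(y) → ∞` needs.

Proof: the sum over the primes is, by the theorem of Bombieri and Vinogradov (`H442R2/KF/Bv`, on files of earlier seats), the
prime number theorem (`Helper507/PNT`) and Cauchy's inequality (`Run7/h962/AP`), equal to the main term up to a small error;
the main term is bounded by the sharp limit of `Run7/h962/NW` (several seats): the mean number of the integers `n + h` without
prime factors `≤ Q` is at most `(e^(-γ)/2 + ε) log k + C` for any `k` shifts and any weight `w ≥ 0` of level `Q`.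
-/

set_option autoImplicit false

open Finset

namespace Pool.Agent.Results.MP_5046ca_nt.PrimesInWindows

/-- the weight `w(n) = ∑_{d ≤ Q} c_d(n mod d)`, an arbitrary real weight of level `Q` -/
noncomputable def weight (Q : ℕ) (c : ℕ → ℕ → ℝ) (n : ℕ) : ℝ := ∑ d ∈ Icc 1 Q, c d (n % d)

/-- `Admitted N δ A c`: the weight `w` of level `Q = ⌊N^δ⌋` with the coefficients `c` is nonnegative, and
`∑_{d ≤ Q} (∑_{a < d} |c_d(a)|)^2 / φ(d)` is at most `(log N)^A` times the square of the mean of `w(n)` over `n < N`. -/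
def Admitted (N : ℕ) (δ : ℝ) (A : ℕ) (c : ℕ → ℕ → ℝ) : Prop :=
  (∀ n, 0 ≤ weight ⌊(N : ℝ) ^ δ⌋₊ c n) ∧
    ∑ d ∈ Icc 1 ⌊(N : ℝ) ^ δ⌋₊, (∑ a ∈ range d, |c d a|) ^ 2 / (Nat.totient d : ℝ) ≤
      Real.log N ^ A * ((∑ n ∈ range N, weight ⌊(N : ℝ) ^ δ⌋₊ c n) / N) ^ 2

/-- (1) For every `ε > 0` there is `C` such that for all `y ≥ 1`, `0 < δ < 1/2`, `A` and `N ≥ N₀(ε, y, δ, A)` and every
admitted weight `w` of level `⌊N^δ⌋`: `∑_{n < N} w(n) (π(n + y) - π(n)) ≤ ((δ/2 + ε) log y + C) ∑_{n < N} w(n)`.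

(2) For every `M` and all `y ≥ y₀(M)`, all `0 < δ < 1/2`, `A`, `N ≥ N₀(M, y, δ, A)` and every admitted weight `w` of level
`⌊N^δ⌋`: `∑_{n < N} w(n) (π(n + y) - π(n)) ≤ (π(y) - M) ∑_{n < N} w(n)`. -/
theorem result :
    (∀ ε : ℝ, 0 < ε → ∃ C : ℝ, ∀ (y : ℕ) (δ : ℝ) (A : ℕ), 1 ≤ y → 0 < δ → δ < 1 / 2 →
      ∃ N₀ : ℕ, ∀ N : ℕ, N₀ ≤ N → ∀ c : ℕ → ℕ → ℝ, Admitted N δ A c →
        ∑ n ∈ range N, weight ⌊(N : ℝ) ^ δ⌋₊ c n * ((Nat.primeCounting (n + y) : ℝ) - Nat.primeCounting n) ≤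
          ((δ / 2 + ε) * Real.log y + C) * ∑ n ∈ range N, weight ⌊(N : ℝ) ^ δ⌋₊ c n) ∧
    (∀ M : ℝ, ∃ y₀ : ℕ, ∀ y : ℕ, y₀ ≤ y → ∀ (δ : ℝ) (A : ℕ), 0 < δ → δ < 1 / 2 →
      ∃ N₀ : ℕ, ∀ N : ℕ, N₀ ≤ N → ∀ c : ℕ → ℕ → ℝ, Admitted N δ A c →
        ∑ n ∈ range N, weight ⌊(N : ℝ) ^ δ⌋₊ c n * ((Nat.primeCounting (n + y) : ℝ) - Nat.primeCounting n) ≤
          ((Nat.primeCounting y : ℝ) - M) * ∑ n ∈ range N, weight ⌊(N : ℝ) ^ δ⌋₊ c n) := by
  have key := Pool.Agent.Run7.h962.AP.win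
  constructor
  · intro ε hε
    obtain ⟨C, _, h1⟩ := key ε hε
    refine ⟨C, fun y δ A hy hδ0 hδ => ?_⟩
    obtain ⟨N₀, h2⟩ := h1 y δ A hy hδ0 hδ
    exact ⟨N₀, fun N hN c h => h2 N hN c h.1 h.2⟩
  · intro M
    obtain ⟨C, _, h1⟩ := key 1 one_pos
    obtain ⟨y₀, hy₀, h2⟩ := Pool.Agent.Run7.h962.LF.Win.grow_pi 2 (C + M)
    refine ⟨y₀, fun y hy δ A hδ0 hδ => ?_⟩
    have h3 := h2 y hy
    obtain ⟨N₀, h4⟩ := h1 y δ A (by omega) hδ0 hδ
    refine ⟨N₀, fun N hN c h => (h4 N hN c h.1 h.2).trans ?_⟩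
    apply mul_le_mul_of_nonneg_right _ (Finset.sum_nonneg fun n _ => h.1 n)
    have hl : 0 ≤ Real.log y := Real.log_natCast_nonneg y
    have h5 : (δ / 2 + 1) * Real.log y ≤ 2 * Real.log y := mul_le_mul_of_nonneg_right (by linarith) hl
    linarith

end Pool.Agent.Results.MP_5046ca_nt.PrimesInWindows
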