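import Mathlib
import Pool.Agent.Run7.h794.RW.C

/-!
# Problem `MP_5046ca_nt`: the largest number of primes in random windows

The window `x + 1, …, x + y` is replaced by `x + s_1, …, x + s_m`. For almost all `m`-tuples of integers `s_i` in `[0, H]`,
`m ≤ (log H) ^ (1 / 51)`, the largest number of primes in the windows with `m < x ≤ H` is `(exp (-γ) + o(1)) m / log m`; in
particular `π(m)` exceeds it by at least `m / (3 log m)`.
-/

set_option autoImplicit false

namespace Pool.Agent.Results.MP_5046ca_nt.RandomWindows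

open Finset
open scoped Classical

/-- the number of primes among `n + s_1, …, n + s_m` -/
noncomputable def primesAt {m : ℕ} (s : Fin m → ℕ) (n : ℕ) : ℕ := (univ.filter fun i => (n + s i).Prime).card

/-- the analogue of `rho` at the scale `H`: the largest number of primes in the windows with `m < n ≤ H` -/
noncomputable def rho {m : ℕ} (s : Fin m → ℕ) (H : ℕ) : ℕ := (Ioc m H).sup (primesAt s)

/-- the law of the maximum, with precision `ε`, and the distance to `π(m)` -/
def Law {m : ℕ} (s : Fin m → ℕ) (H : ℕ) (ε : ℝ) : Prop :=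
  (Real.exp (-Real.eulerMascheroniConstant) - ε) * (m / Real.log m) ≤ rho s H ∧
  (rho s H : ℝ) ≤ (Real.exp (-Real.eulerMascheroniConstant) + ε) * (m / Real.log m) ∧
  m / (3 * Real.log m) ≤ (Nat.primeCounting m : ℝ) - rho s H

theorem result (ε : ℝ) (hε : 0 < ε) (hε1 : ε ≤ 1 / 50) : ∃ m₀ H₀ : ℕ, ∀ H : ℕ, H₀ ≤ H → ∀ m : ℕ, m₀ ≤ m →
    (m : ℝ) ≤ Real.log H ^ (1 / 51 : ℝ) →
    (((Fintype.piFinset (fun _ : Fin m => range (H + 1))).filter (fun s => ¬ Law s H ε)).card : ℝ) ≤
      Real.exp (-(ε ^ 2 / 100 * (m / Real.log m))) * (H + 1 : ℝ) ^ m := by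
  obtain ⟨m₀, H₀, h⟩ := Pool.Agent.Run7.h794.RW.law ε hε hε1
  refine ⟨m₀, H₀, fun H hH m hm hmH => ?_⟩
  refine le_trans ?_ (h H hH m hm hmH)
  have hsub : (Fintype.piFinset (fun _ : Fin m => range (H + 1))).filter (fun s => ¬ Law s H ε) ⊆
      (Fintype.piFinset (fun _ : Fin m => range (H + 1))).filter (fun s => ¬ Pool.Agent.Run7.h794.RW.Law s H ε) := by
    intro s hs
    rw [mem_filter] at hs ⊢
    refine ⟨hs.1, fun hg => hs.2 ?_⟩
    obtain ⟨g1, g2, g3⟩ := hg
    have e : rho s H = Pool.Agent.Run7.h794.RW.rho s H := rfl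
    refine ⟨?_, ?_, ?_⟩
    · rw [e]; exact g1
    · rw [e]; exact g2
    · rw [e]; linarith
  exact_mod_cast card_le_card hsub

end Pool.Agent.Results.MP_5046ca_nt.RandomWindows
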