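import Pool.Agent.Run7.h962.LF.Win

/-!
# The negated form of the problem and the method of Maynard and Tao: no nonnegative sieve weight reaches `π(y) - M`

The problem asks whether `π(y) - ρ(y)` tends to infinity, where `ρ(y)` is the largest number of primes which occur in windows
`(x, x + y]` for arbitrarily large `x`.  A disproof needs windows which contain at least `π(y) - C` primes (they exist, for
large `y`, if the prime `k`-tuples conjecture holds, by Hensley and Richards).  All that is known about lower bounds for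
`ρ(y)` for large `y` comes from the method of Goldston, Pintz, Yıldırım, Maynard and Tao: one takes a nonnegative weight
`w(n)` of level `Q` (a sum of functions with periods `d ≤ Q`) for which the expected number of primes in `(n, n + y]` is
large; if the primes have the level of distribution `θ`, the weights of Maynard and Tao give `(θ/2 + o(1)) log y` primes.  We
prove that no nonnegative weight of any shape gives more, and that a disproof of the problem by nonnegative weights is
impossible.  The windows may moreover be restricted to those `n` at which a given integer polynomial `P` has no prime factor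
`≤ Q` (`P = 1`: all windows; `P = X`: windows which begin after a prime; `P = X (X + y + 1)`: windows between two primes,
and so on); the weight then needs to be nonnegative only for these `n`, and `mean Q P` is the mean over these `n` mod `Q!`.

(1) The mean of `w(n)` times the number of the integers in `(n, n + y]` without prime factors `≤ Q` is at most
`(e^(-γ)/2 + ε) log y + C(ε)` times the mean of `w`.

(2) Times `∏_{p ≤ Q} (1 - 1/p)^(-1)` it is at most `((1/2 + ε) log y + C(ε)) log Q` times the mean of `w`.  Here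
`∏_{p ≤ Q} (1 - 1/p)^(-1) · mean(w(n) 1[(n + h, Q!) = 1])` is the expected value of the mean of `w(n) Λ(n + h)` (the
integers `n ≡ a mod d` give `1/φ(d)` or `0`; for general `P` the value according to the conjecture of Bateman and Horn).

(3) For every `M` and all `y ≥ y₀(M)`: these means are at most `π(y) - M` and `(π(y) - M) log Q` times the mean of `w`.  So
no nonnegative weight can show the existence of windows of length `y` with more than `π(y) - M` primes, not even if the
primes have the level of distribution `1` in the strongest form.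

The proof extends the one for shifts (MP_8923e7_nt, `SharpLimitOfNonnegativeWeights`, by helpers 962, 816, 249, 420, 571, 956,
697, 743, 97, 245, 372 and 91, with starting files of helper422) to the integers `n` at which a polynomial has no small prime
factor (`Pool/Agent/Run7/h962/LF/{ARP,Gen,Win}`).
-/

set_option autoImplicit false

open Finset

namespace Pool.Agent.Results.MP_5046ca_nt.WindowsLimitOfWeights

/-- the weight `w(n) = ∑_{d ≤ Q} c_d(n mod d)`, an arbitrary real weight of level `Q` -/
noncomputable def weight (Q : ℕ) (c : ℕ → ℕ → ℝ) (n : ℕ) : ℝ := ∑ d ∈ Icc 1 Q, c d (n % d)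

/-- the `n` mod `Q!` for which `P(n)` has no prime factor `≤ Q` -/
def sifted (Q : ℕ) (P : Polynomial ℤ) : Finset ℕ :=
  (range Q.factorial).filter (fun n : ℕ => Int.gcd (P.eval (n : ℤ)) Q.factorial = 1)

/-- the mean value of `F` over the `n` mod `Q!` for which `P(n)` has no prime factor `≤ Q` -/
noncomputable def mean (Q : ℕ) (P : Polynomial ℤ) (F : ℕ → ℝ) : ℝ :=
  (∑ n ∈ sifted Q P, F n) / ((sifted Q P).card : ℝ)

/-- the number of the integers in the window `(n, n + y]` without prime factors `p ≤ Q` -/
def free (Q y n : ℕ) : ℕ :=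
  ((Ioc n (n + y)).filter (fun m : ℕ => ∀ p ∈ Icc (1 : ℕ) Q, Nat.Prime p → ¬ p ∣ m)).card

/-- the product `∏_{p ≤ Q} (1 - 1/p)^(-1)`, asymptotically equal to `e^γ log Q` -/
noncomputable def euler (Q : ℕ) : ℝ := (∏ p ∈ (Icc 1 Q).filter Nat.Prime, (1 - 1 / (p : ℝ)))⁻¹

/-- `Admitted Q y g B P c`: the polynomial `P` has degree at most `g`, coefficients of absolute value at most `Q^B` and none
of the zeros `-1, ..., -y`, and the weight with the coefficients `c` is nonnegative at the `n` for which `P(n)` is
prime to `Q!`. -/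
def Admitted (Q y g : ℕ) (B : ℝ) (P : Polynomial ℤ) (c : ℕ → ℕ → ℝ) : Prop :=
  P.natDegree ≤ g ∧ (∀ j, |(P.coeff j : ℝ)| ≤ (Q : ℝ) ^ B) ∧ (∀ h ∈ Icc 1 y, P.eval (-(h : ℤ)) ≠ 0) ∧
    ∀ n : ℕ, Int.gcd (P.eval (n : ℤ)) Q.factorial = 1 → 0 ≤ weight Q c n

/-- For every `ε > 0` there is `C` such that for all `y ≥ 1`, all `g`, all real `B` and all `Q ≥ Q₀(ε, y, g, B)`, all polynomials
and all weights of level `Q` which are admitted:

(1) the mean of `w(n)` times the number of the integers in `(n, n + y]` without prime factors `≤ Q` is at most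
`((e^(-γ)/2 + ε) log y + C)` times the mean of `w`;

(2) times `∏_{p ≤ Q} (1 - 1/p)^(-1)` it is at most `((1/2 + ε) log y + C) log Q` times the mean of `w`.

(3) For every `M` and all `y ≥ y₀(M)`, all `g`, `B`, `Q ≥ Q₀(M, y, g, B)`, all admitted polynomials and weights the two means
are at most `π(y) - M` and `(π(y) - M) log Q` times the mean of `w`. -/
theorem result :
    (∀ ε : ℝ, 0 < ε → ∃ C : ℝ, ∀ (y g : ℕ) (B : ℝ), 1 ≤ y → ∃ Q₀ : ℕ, ∀ Q : ℕ, Q₀ ≤ Q →
      ∀ (P : Polynomial ℤ) (c : ℕ → ℕ → ℝ), Admitted Q y g B P c →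
        mean Q P (fun n => weight Q c n * (free Q y n : ℝ)) ≤
          ((Real.exp (-Real.eulerMascheroniConstant) / 2 + ε) * Real.log y + C) * mean Q P (weight Q c) ∧
        euler Q * mean Q P (fun n => weight Q c n * (free Q y n : ℝ)) ≤
          ((1 / 2 + ε) * Real.log y + C) * Real.log Q * mean Q P (weight Q c)) ∧
    (∀ M : ℝ, ∃ y₀ : ℕ, ∀ y : ℕ, y₀ ≤ y → ∀ (g : ℕ) (B : ℝ), ∃ Q₀ : ℕ, ∀ Q : ℕ, Q₀ ≤ Q →
      ∀ (P : Polynomial ℤ) (c : ℕ → ℕ → ℝ), Admitted Q y g B P c →
        mean Q P (fun n => weight Q c n * (free Q y n : ℝ)) ≤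
          (Nat.primeCounting y - M) * mean Q P (weight Q c) ∧
        euler Q * mean Q P (fun n => weight Q c n * (free Q y n : ℝ)) ≤
          (Nat.primeCounting y - M) * Real.log Q * mean Q P (weight Q c)) := by
  have key := Pool.Agent.Run7.h962.LF.Win.win
  constructor
  · intro ε hε
    obtain ⟨C, _, h1⟩ := key ε hε
    refine ⟨C, fun k g B hk => ?_⟩
    obtain ⟨Q₀, h2⟩ := h1 k g B hk
    exact ⟨Q₀, fun Q hQ P c h => h2 Q hQ P h.1 h.2.1 h.2.2.1 c h.2.2.2⟩
  · intro M
    obtain ⟨C, hC, h1⟩ := key 1 one_pos
    obtain ⟨k₀, hk₀, h2⟩ := Pool.Agent.Run7.h962.LF.Win.grow_pi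
      (max (Real.exp (-Real.eulerMascheroniConstant) / 2 + 1) (1 / 2 + 1)) (C + M)
    refine ⟨k₀, fun k hk g B => ?_⟩
    have hm := h2 k hk
    obtain ⟨Q₀, h3⟩ := h1 k g B (by omega)
    refine ⟨Q₀, fun Q hQ P c h => ?_⟩
    have h4 := h3 Q hQ P h.1 h.2.1 h.2.2.1 c h.2.2.2
    have hM : 0 ≤ mean Q P (weight Q c) := by
      unfold mean
      apply div_nonneg _ (Nat.cast_nonneg _)
      apply Finset.sum_nonneg
      intro n hn
      exact h.2.2.2 n (mem_filter.1 hn).2
    have hl : 0 ≤ Real.log Q := Real.log_natCast_nonneg Q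
    have hk1 : 0 ≤ Real.log k := Real.log_natCast_nonneg k
    have hA : (Real.exp (-Real.eulerMascheroniConstant) / 2 + 1) * Real.log k ≤
        max (Real.exp (-Real.eulerMascheroniConstant) / 2 + 1) (1 / 2 + 1) * Real.log k :=
      mul_le_mul_of_nonneg_right (le_max_left _ _) hk1
    have hB : (1 / 2 + 1 : ℝ) * Real.log k ≤
        max (Real.exp (-Real.eulerMascheroniConstant) / 2 + 1) (1 / 2 + 1) * Real.log k :=
      mul_le_mul_of_nonneg_right (le_max_right _ _) hk1
    refine ⟨le_trans h4.1 ?_, le_trans h4.2 ?_⟩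
    · exact mul_le_mul_of_nonneg_right (by linarith) hM
    · rw [mul_assoc, mul_assoc]
      exact mul_le_mul_of_nonneg_right (by linarith) (mul_nonneg hl hM)

end Pool.Agent.Results.MP_5046ca_nt.WindowsLimitOfWeights
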